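import Pool.Agent.TH63.KQ.Main

/-!
# Products of conjugacy classes under Kervaire extensions: abelian normal subgroups and `q`-groups

Let `A` be an abelian normal subgroup of `G` and `w_0, ..., w_(n-1)` a system of `n` equations over `G`
in `n` unknowns whose determinant of exponent sums is not divisible by the prime `q`.  Assume that
`G/A` is a finite `q`-group, or that `G/C_G(A)` is a finite `q`-group and the system is solvable
modulo `A`.  Then `1 ∈ ∏ g_i^H` implies `1 ∈ ∏ g_i^G`.
-/

set_option autoImplicit false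

open Monoid

namespace Pool.Agent.Results.MP_9999b4_al.AbelianNormalPrimePower

variable {G : Type} [Group G] {n : ℕ}

/-- the exponent sum of `t_i` in an element of `G * F(t_0, ..., t_(n-1))` -/
def expSum (i : Fin n) (w : Coprod G (FreeGroup (Fin n))) : ℤ :=
  Multiplicative.toAdd (Coprod.lift (1 : G →* Multiplicative ℤ)
    (FreeGroup.lift fun k : Fin n => if k = i then Multiplicative.ofAdd (1 : ℤ) else 1) w)

/-- the value in `G` of an element of `G * F(t_0, ..., t_(n-1))` at `t_i = b i` -/
def value (b : Fin n → G) (w : Coprod G (FreeGroup (Fin n))) : G :=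
  Coprod.lift (MonoidHom.id G) (FreeGroup.lift b) w

/-- the group `H = G * F(t_0, ..., t_(n-1)) / << w_0, ..., w_(n-1) >>` -/
abbrev Ext (w : Fin n → Coprod G (FreeGroup (Fin n))) :=
  Coprod G (FreeGroup (Fin n)) ⧸ Subgroup.normalClosure (Set.range w)

/-- the map `G → H` -/
def toExt (w : Fin n → Coprod G (FreeGroup (Fin n))) : G →* Ext w :=
  (QuotientGroup.mk' (Subgroup.normalClosure (Set.range w))).comp Coprod.inl

/-- Let `A` be an abelian normal subgroup of `G`, `q` a prime and `w_j` (`j < n`) elements of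
`G * F(t_0, ..., t_(n-1))` whose determinant of exponent sums is not divisible by `q`.  Assume that
`|G : A|` is a power of `q`, or that `|G : C_G(A)|` is a power of `q` and for some `b_i` in `G` all the
values `w_j(b_0, ..., b_(n-1))` lie in `A`.  If `1` is a product of `H`-conjugates of (the images of)
`g_1, ..., g_r` in `G`, then `1` is a product of `G`-conjugates of `g_1, ..., g_r`. -/
theorem result (G : Type) [Group G] (A : Subgroup G) (hnormal : A.Normal)
    (hcomm : ∀ a ∈ A, ∀ b ∈ A, a * b = b * a) (q : ℕ) (hq : q.Prime) (n : ℕ)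
    (w : Fin n → Coprod G (FreeGroup (Fin n)))
    (hdet : ¬ (q : ℤ) ∣ (Matrix.of fun i j : Fin n => expSum i (w j)).det)
    (hA : (∃ k : ℕ, A.index = q ^ k) ∨
      ((∃ k : ℕ, (Subgroup.centralizer (A : Set G)).index = q ^ k) ∧
        ∃ b : Fin n → G, ∀ j, value b (w j) ∈ A))
    (r : ℕ) (g : Fin r → G)
    (hg : ∃ h : Fin r → Ext w, (List.ofFn fun i => h i * toExt w (g i) * (h i)⁻¹).prod = 1) :
    ∃ x : Fin r → G, (List.ofFn fun i => x i * g i * (x i)⁻¹).prod = 1 := by
  haveI := hnormal
  haveI : Fact q.Prime := ⟨hq⟩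
  haveI hAc : IsMulCommutative A :=
    isMulCommutative_iff.2 fun a b => Subtype.ext (hcomm a a.2 b b.2)
  have hcop : IsCoprime (Matrix.of fun i j : Fin n => expSum i (w j)).det (q : ℤ) := by
    have h1 : IsCoprime (q : ℤ) (Matrix.of fun i j : Fin n => expSum i (w j)).det :=
      (Nat.prime_iff_prime_int.1 hq).coprime_iff_not_dvd.2 hdet
    exact h1.symm
  have hAC : A ≤ Subgroup.centralizer (A : Set G) := Subgroup.le_centralizer A
  have hfin : ∀ B : Subgroup G, ∀ k : ℕ, B.index = q ^ k → Finite (G ⧸ B) := by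
    intro B k hk
    refine Nat.finite_of_card_ne_zero ?_
    rw [← Subgroup.index_eq_card, hk]
    exact pow_ne_zero _ hq.ne_zero
  have hsol : (∃ k : ℕ, (Subgroup.centralizer (A : Set G)).index = q ^ k) ∧
      ∃ b : Fin n → G, ∀ j, value b (w j) ∈ A := by
    rcases hA with ⟨k, hk⟩ | h
    · refine ⟨?_, ?_⟩
      · have h1 := Subgroup.index_dvd_of_le hAC
        rw [hk] at h1
        obtain ⟨m, -, hm⟩ := (Nat.dvd_prime_pow hq).1 h1
        exact ⟨m, hm⟩
      · haveI := hfin A k hk
        have hP : IsPGroup q (G ⧸ A) := IsPGroup.of_card (n := k) (by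
          rw [← Subgroup.index_eq_card, hk])
        obtain ⟨b, hb, -⟩ := Pool.Agent.TH63.KQ.unique_solution q w hcop _ (G ⧸ A) le_rfl hP
          (QuotientGroup.mk' A) (fun _ => 1)
        have hl : ∀ i, ∃ γ : G, QuotientGroup.mk' A γ = b i :=
          fun i => QuotientGroup.mk'_surjective _ (b i)
        choose t ht using hl
        refine ⟨t, fun j => ?_⟩
        have h1 := Pool.Agent.TH63.KQ.ev_comp (QuotientGroup.mk' A) (MonoidHom.id G) t (w j)
        rw [funext ht, MonoidHom.comp_id, hb j] at h1
        exact (QuotientGroup.eq_one_iff _).1 h1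
    · exact h
  obtain ⟨⟨k, hk⟩, t, ht⟩ := hsol
  haveI := hfin _ k hk
  have hK : IsPGroup q (G ⧸ Subgroup.centralizer (A : Set G)) := IsPGroup.of_card (n := k) (by
    rw [← Subgroup.index_eq_card, hk])
  exact Pool.Agent.TH63.KQ.main G A (Subgroup.centralizer (A : Set G))
    (fun x hx a ha => (Subgroup.mem_centralizer_iff.1 hx a ha).symm) hAC q hK n w hcop t ht r g hg

end Pool.Agent.Results.MP_9999b4_al.AbelianNormalPrimePower
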