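import Pool.Agent.TH646.Kerv

set_option autoImplicit false

/-! Products of conjugacy classes under Kervaire extensions: a counterexample with a free group and
one unknown of exponent sum one. -/

namespace Pool.Agent.Results.MP_9999b4_al.FreeGroupOneUnknown

open Pool.Agent.TH646.Kerv Pool.Agent.Helper158.Stall

/-- the free product of `G` and the free group on `t_1, ..., t_n` -/
abbrev Words (G : Type) [Group G] (n : ℕ) : Type := Monoid.Coprod G (FreeGroup (Fin n))

/-- the exponent sum of `t_i` in a word -/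
def expSum {G : Type} [Group G] {n : ℕ} (i : Fin n) (u : Words G n) : ℤ :=
  Multiplicative.toAdd (Monoid.Coprod.lift (1 : G →* Multiplicative ℤ)
    (FreeGroup.lift (fun k : Fin n => if k = i then Multiplicative.ofAdd (1 : ℤ) else 1)) u)

/-- a nonsingular system -/
def Nonsingular {G : Type} [Group G] {n : ℕ} (w : Fin n → Words G n) : Prop :=
  (Matrix.of (fun i j : Fin n => expSum i (w j))).det ≠ 0

/-- the group `H` of a system -/
abbrev Ext {G : Type} [Group G] {n : ℕ} (w : Fin n → Words G n) : Type :=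
  Words G n ⧸ Subgroup.normalClosure (Set.range w)

/-- the map from `G` to `H` -/
def incl {G : Type} [Group G] {n : ℕ} (w : Fin n → Words G n) : G →* Ext w :=
  (QuotientGroup.mk' (Subgroup.normalClosure (Set.range w))).comp Monoid.Coprod.inl

/-- `1` is in the product of the conjugacy classes of `g_1, ..., g_r` -/
def OneInProduct {A : Type} [Group A] {r : ℕ} (g : Fin r → A) : Prop :=
  ∃ x : Fin r → A, (List.ofFn (fun i => x i * g i * (x i)⁻¹)).prod = 1

/-- the retraction `H → F` -/
theorem exists_back : ∃ β : Ext w →* FreeGroup (Fin 3), ∀ s : SS, β (incl w s) = s := by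
  have hw : ∀ u ∈ Set.range w, (Monoid.Coprod.lift S.subtype
      (FreeGroup.lift (fun _ : Fin 1 => FreeGroup.of (2 : Fin 3)))) u = 1 := by
    rintro _ ⟨j, rfl⟩
    simp only [w, rel, tK, map_mul, map_inv, Monoid.Coprod.lift_apply_inl,
      Monoid.Coprod.lift_apply_inr, FreeGroup.lift_apply_of]
    show (FreeGroup.mk W)⁻¹ * (FreeGroup.of 2 * FreeGroup.of 2 * FreeGroup.of 0 *
      (FreeGroup.of 2)⁻¹ * FreeGroup.of 1) = 1
    rw [W_eq, inv_mul_cancel]
  refine ⟨QuotientGroup.lift _ (Monoid.Coprod.lift S.subtype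
      (FreeGroup.lift (fun _ : Fin 1 => FreeGroup.of (2 : Fin 3))))
      (fun u hu => (Subgroup.normalClosure_le_normal (N := MonoidHom.ker _)
        (fun u hu => hw u hu)) hu), ?_⟩
  intro s
  show (Monoid.Coprod.lift S.subtype
      (FreeGroup.lift (fun _ : Fin 1 => FreeGroup.of (2 : Fin 3)))) (Monoid.Coprod.inl s) = s
  rw [Monoid.Coprod.lift_apply_inl]
  rfl

theorem result : ∃ (S : Subgroup (FreeGroup (Fin 3))) (w : Fin 1 → Words S 1) (g : Fin 23 → S),
    (∃ x y z : FreeGroup (Fin 3), S = Subgroup.closure {x, y, z}) ∧ IsFreeGroup S ∧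
      expSum 0 (w 0) = 1 ∧ Nonsingular w ∧
      Function.Injective (incl w) ∧ OneInProduct (fun i => incl w (g i)) ∧ ¬ OneInProduct g := by
  refine ⟨Pool.Agent.Helper158.Stall.S, w, g, ⟨_, _, _, rfl⟩, inferInstance, ?_, det_ne, ?_,
    in_H, fun h => no_lift h⟩
  · simp [expSum, w, rel, tK]
  · obtain ⟨β, hβ⟩ := exists_back
    intro s s' h
    apply Subtype.ext
    rw [← hβ s, ← hβ s', h]

end Pool.Agent.Results.MP_9999b4_al.FreeGroupOneUnknown
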