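import Pool.Agent.TH6.KE.Centre

/-!
# Products of conjugacy classes under Kervaire extensions: systems solvable modulo the centre

`G` is any group, `C` a subgroup and `w_0, ..., w_(n-1)` a nonsingular system with coefficients in
`C`, in `n` unknowns.  If the system has a solution in `C` modulo the centre of `C`, then
`1 ∈ ∏ g_i^H` implies `1 ∈ ∏ g_i^G`, where `H = G * F(t_0, ..., t_(n-1)) / << w_0, ..., w_(n-1) >>`.
-/

set_option autoImplicit false

open Monoid

namespace Pool.Agent.Results.MP_9999b4_al.SolvableModuloCentre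

universe u

variable {G : Type u} [Group G] {C : Subgroup G} {n : ℕ}

/-- the exponent sum of `t_i` in a word of `C * F(t_0, ..., t_(n-1))` -/
def expSum (i : Fin n) (w : Coprod C (FreeGroup (Fin n))) : ℤ :=
  Multiplicative.toAdd (Coprod.lift (1 : C →* Multiplicative ℤ)
    (FreeGroup.lift fun k : Fin n => if k = i then Multiplicative.ofAdd (1 : ℤ) else 1) w)

/-- the value in `C` of a word of `C * F(t_0, ..., t_(n-1))` at `t_i = b i` -/
def value (b : Fin n → C) (w : Coprod C (FreeGroup (Fin n))) : C :=
  Coprod.lift (MonoidHom.id C) (FreeGroup.lift b) w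

/-- a word with coefficients in `C` as an element of `G * F(t_0, ..., t_(n-1))` -/
def toG (w : Coprod C (FreeGroup (Fin n))) : Coprod G (FreeGroup (Fin n)) :=
  Coprod.map C.subtype (MonoidHom.id (FreeGroup (Fin n))) w

/-- the group `H = G * F(t_0, ..., t_(n-1)) / << w_0, ..., w_(n-1) >>` -/
abbrev Ext (w : Fin n → Coprod C (FreeGroup (Fin n))) :=
  Coprod G (FreeGroup (Fin n)) ⧸ Subgroup.normalClosure (Set.range fun j => toG (w j))

/-- the map `G → H` -/
def toExt (w : Fin n → Coprod C (FreeGroup (Fin n))) : G →* Ext w :=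
  (QuotientGroup.mk' (Subgroup.normalClosure (Set.range fun j => toG (w j)))).comp Coprod.inl

/-- Let `C` be a subgroup of an arbitrary group `G` and `w_j` (`j < n`) a nonsingular system with
coefficients in `C` in the unknowns `t_i` (`i < n`).  Assume that for some `b_i` in `C` all the values
`w_j(b_0, ..., b_(n-1))` lie in the centre of `C`.  If `1` is a product of `H`-conjugates of (the
images of) `g_1, ..., g_r` in `G`, then `1` is a product of `G`-conjugates of `g_1, ..., g_r`. -/
theorem result (G : Type u) [Group G] (C : Subgroup G) (n : ℕ)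
    (w : Fin n → Coprod C (FreeGroup (Fin n)))
    (hdet : (Matrix.of fun i j : Fin n => expSum i (w j)).det ≠ 0)
    (hb : ∃ b : Fin n → C, ∀ j, value b (w j) ∈ Subgroup.center C)
    (r : ℕ) (g : Fin r → G)
    (hg : ∃ h : Fin r → Ext w, (List.ofFn fun i => h i * toExt w (g i) * (h i)⁻¹).prod = 1) :
    ∃ x : Fin r → G, (List.ofFn fun i => x i * g i * (x i)⁻¹).prod = 1 := by
  obtain ⟨b, hb⟩ := hb
  obtain ⟨N, τ, hτ⟩ := Pool.Agent.TH6.KE.centre_solve C n w hdet b hb
  refine Pool.Agent.TH6.KE.conservative_quot (fun j => toG (w j)) _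
    Pool.Agent.TH6.KE.Wr.conservative_diag τ (fun j => ?_) r g hg
  have h1 : (Coprod.lift (Pool.Agent.TH6.KE.Wr.diag G (Fin n → ZMod N)) (FreeGroup.lift τ)).comp
      (Coprod.map C.subtype (MonoidHom.id (FreeGroup (Fin n)))) =
      Coprod.lift ((Pool.Agent.TH6.KE.Wr.diag G (Fin n → ZMod N)).comp C.subtype)
        (FreeGroup.lift τ) := by
    apply Coprod.hom_ext
    · refine MonoidHom.ext fun u => ?_
      simp
    · refine FreeGroup.ext_hom _ _ fun u => ?_
      simp
  rw [← hτ j, ← h1]
  rfl

end Pool.Agent.Results.MP_9999b4_al.SolvableModuloCentre
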