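import Pool.Agent.TH6.KE.Sparse

/-!
# Products of conjugacy classes under Kervaire extensions: sparse systems

`G` is any group, `w_0, ..., w_(n-1)` are words in `G * F(t_0, ..., t_(n-1))` forming a nonsingular
system, and `H = G * F / << w_0, ..., w_(n-1) >>`.  Suppose that every `w_j` contains at most two
letters `t_i^(±1)` (systems of weight two), or every `t_i^(±1)` occurs at most twice in the whole
system (quadratic systems), or the incidence graph of the system is a pseudoforest.  Then
`1 ∈ ∏ g_i^H` implies `1 ∈ ∏ g_i^G` for all `g_1, ..., g_r` in `G`.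
-/

set_option autoImplicit false
set_option linter.unusedSectionVars false

open Monoid

namespace Pool.Agent.Results.MP_9999b4_al.SparseSystems

universe u

variable {G : Type u} [Group G] {n : ℕ}

/-- The words are lists of letters `g` (`Sum.inl g`), `t_i` (`Sum.inr (i, true)`) and `t_i⁻¹`
(`Sum.inr (i, false)`). -/
abbrev Word (G : Type u) (n : ℕ) := List (G ⊕ Fin n × Bool)

/-- the element of `G * F(t_0, ..., t_(n-1))` given by a letter -/
def letter : G ⊕ Fin n × Bool → Coprod G (FreeGroup (Fin n))
  | Sum.inl g => Coprod.inl g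
  | Sum.inr (i, true) => Coprod.inr (FreeGroup.of i)
  | Sum.inr (i, false) => (Coprod.inr (FreeGroup.of i))⁻¹

/-- the element of `G * F(t_0, ..., t_(n-1))` given by a word -/
def elt (L : Word G n) : Coprod G (FreeGroup (Fin n)) := (L.map letter).prod

/-- exponent sum of `t_i` in a word -/
def expSum (i : Fin n) (L : Word G n) : ℤ :=
  (L.map fun y => match y with
    | Sum.inl _ => 0
    | Sum.inr (j, s) => if j = i then (if s then 1 else -1) else 0).sum

/-- number of occurrences of `t_i` and `t_i⁻¹` in a word -/
def occurrences (i : Fin n) (L : Word G n) : ℕ :=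
  (L.map fun y => match y with
    | Sum.inl _ => 0
    | Sum.inr (j, _) => if j = i then 1 else 0).sum

/-- number of letters `t_i^(±1)` in a word, all `i` -/
def weight (L : Word G n) : ℕ :=
  (L.map fun y => match y with
    | Sum.inl _ => 0
    | Sum.inr _ => 1).sum

open Classical in
/-- number of occurrences of `t_i` and `t_i⁻¹` in a word; if only one of `t_i`, `t_i⁻¹` occurs, then
several occurrences are counted as two -/
noncomputable def count (i : Fin n) (L : Word G n) : ℕ :=
  if Sum.inr (i, true) ∈ L ∧ Sum.inr (i, false) ∈ L then occurrences i L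
  else min (occurrences i L) 2

/-- for all sets `I` of unknowns and `J` of words: at most `|I| + |J|` occurrences of unknowns in `I`
in words in `J`, counted as in `count` -/
def Pseudoforest (L : Fin n → Word G n) : Prop :=
  ∀ I J : Finset (Fin n), ∑ j ∈ J, ∑ i ∈ I, count i (L j) ≤ I.card + J.card

/-- the group `H = G * F(t_0, ..., t_(n-1)) / << w_0, ..., w_(n-1) >>` -/
abbrev Ext (L : Fin n → Word G n) :=
  Coprod G (FreeGroup (Fin n)) ⧸ Subgroup.normalClosure (Set.range fun j => elt (L j))

/-- the map `G → H` -/
def toExt (L : Fin n → Word G n) : G →* Ext L :=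
  (QuotientGroup.mk' (Subgroup.normalClosure (Set.range fun j => elt (L j)))).comp Coprod.inl

open Pool.Agent.TH6.KE in
lemma lift_elt {W : Type u} [Group W] (d : G →* W) (τ : Fin n → W) (L : Word G n) :
    Coprod.lift d (FreeGroup.lift τ) (elt L) = ev d τ L := by
  induction L with
  | nil => simp [elt]
  | cons y L ih =>
    unfold elt at ih ⊢
    rw [List.map_cons, List.prod_cons, map_mul, ih, ev_cons]
    congr 1
    rcases y with g | ⟨i, s⟩
    · simp [letter, lval]
    · cases s <;> simp [letter, lval]

lemma expSum_eq (i : Fin n) (L : Word G n) : expSum i L = Pool.Agent.TH6.KE.exp i L := by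
  unfold expSum Pool.Agent.TH6.KE.exp
  congr 1
  apply List.map_congr_left
  rintro (g | ⟨j, s⟩) _ <;> rfl

lemma occurrences_eq (i : Fin n) (L : Word G n) :
    occurrences i L = Pool.Agent.TH6.KE.occ i L := by
  unfold occurrences Pool.Agent.TH6.KE.occ
  congr 1
  apply List.map_congr_left
  rintro (g | ⟨j, s⟩) _ <;> rfl

lemma weight_eq (L : Word G n) : weight L = Pool.Agent.TH6.KE.len L := by
  unfold weight Pool.Agent.TH6.KE.len
  congr 1
  apply List.map_congr_left
  rintro (g | ⟨j, s⟩) _ <;> rfl

lemma count_eq (i : Fin n) (L : Word G n) : count i L = Pool.Agent.TH6.KE.cnt i L := by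
  unfold count Pool.Agent.TH6.KE.cnt
  rw [occurrences_eq]
  by_cases h : Sum.inr (i, true) ∈ L ∧ Sum.inr (i, false) ∈ L
  · rw [if_pos h, if_pos (show Pool.Agent.TH6.KE.Mixed i L from h)]
  · rw [if_neg h, if_neg (show ¬ Pool.Agent.TH6.KE.Mixed i L from h)]

/-- Let `w_j = elt (L j)` (`j < n`) be a nonsingular system over an arbitrary group `G` in the
unknowns `t_i` (`i < n`).  Assume that every word contains at most two letters `t_i^(±1)`, or every
unknown occurs at most twice in the whole system, or the system is a pseudoforest.  If `1` is a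
product of `H`-conjugates of (the images of) `g_1, ..., g_r` in `G`, then `1` is a product of
`G`-conjugates of `g_1, ..., g_r`. -/
theorem result (G : Type u) [Group G] (n : ℕ) (L : Fin n → Word G n)
    (hdet : (Matrix.of fun i j : Fin n => expSum i (L j)).det ≠ 0)
    (hL : (∀ j, weight (L j) ≤ 2) ∨ (∀ i, ∑ j, occurrences i (L j) ≤ 2) ∨ Pseudoforest L)
    (r : ℕ) (g : Fin r → G)
    (hg : ∃ h : Fin r → Ext L, (List.ofFn fun i => h i * toExt L (g i) * (h i)⁻¹).prod = 1) :
    ∃ x : Fin r → G, (List.ofFn fun i => x i * g i * (x i)⁻¹).prod = 1 := by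
  have hr : LinearIndependent ℚ (fun j => Pool.Agent.TH6.KE.row (L j)) := by
    have h1 : (Matrix.of fun j i : Fin n => (expSum i (L j) : ℚ)).det ≠ 0 := by
      have h2 : (Matrix.of fun j i : Fin n => (expSum i (L j) : ℚ)) =
          ((Matrix.of fun i j : Fin n => expSum i (L j)).map (Int.castRingHom ℚ)).transpose := by
        ext i j
        simp
      rw [h2, Matrix.det_transpose, ← RingHom.mapMatrix_apply, ← RingHom.map_det]
      simpa using hdet
    have h3 : (fun j => Pool.Agent.TH6.KE.row (L j)) =
        (Matrix.of fun j i : Fin n => (expSum i (L j) : ℚ)).row := by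
      funext j i
      simp [Pool.Agent.TH6.KE.row, expSum_eq, Matrix.row]
    rw [h3]
    exact Matrix.linearIndependent_rows_of_det_ne_zero h1
  have key : ∃ (W : Type u) (_ : Group W) (d : G →* W) (τ : Fin n → W),
      Pool.Agent.TH6.KE.Conservative d ∧ ∀ k, Pool.Agent.TH6.KE.ev d τ (L k) = 1 := by
    rcases hL with hL | hL | hL
    · obtain ⟨τ, hτ⟩ := Pool.Agent.TH6.KE.solve n (Fin n) (Fintype.card_fin n) L hr
        (Or.inl fun j => by rw [← weight_eq]; exact hL j)
      exact ⟨_, inferInstance, _, τ, Pool.Agent.TH6.KE.Wr.conservative_diag, hτ⟩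
    · obtain ⟨τ, hτ⟩ := Pool.Agent.TH6.KE.solve n (Fin n) (Fintype.card_fin n) L hr
        (Or.inr fun i => by simp only [← occurrences_eq]; exact hL i)
      exact ⟨_, inferInstance, _, τ, Pool.Agent.TH6.KE.Wr.conservative_diag, hτ⟩
    · exact Pool.Agent.TH6.KE.sparse_solve n G (Fin n) (Fintype.card_fin n) L hr
        (fun I J => by simp only [← count_eq]; exact hL I J)
  obtain ⟨W, _, d, τ, hd, hτ⟩ := key
  exact Pool.Agent.TH6.KE.conservative_quot (fun j => elt (L j)) d hd τ
    (fun j => by rw [lift_elt]; exact hτ j) r g hg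

end Pool.Agent.Results.MP_9999b4_al.SparseSystems
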